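import Pool.Agent.Lib.helper10.NPClique

namespace Pool.Agent.Results.MP_edb722_lc.NPHard

open Pool.Agent.Cx Filter Finset

/-- the letter `a - b`, with `0, +, -` written `0, 1, 2` -/
def dl (a b : Bool) : ℕ := if a = b then 0 else if a then 1 else 2

/-- the difference word `u - v` -/
def diff {t : ℕ} (u v : Fin t → Bool) : List ℕ := List.ofFn fun i => dl (u i) (v i)

/-- no word of `D` is a factor of a difference of two distinct elements of `W` -/
def Avoids (D : List (List ℕ)) {t : ℕ} (W : Finset (Fin t → Bool)) : Prop :=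
  ∀ u ∈ W, ∀ v ∈ W, u ≠ v → ∀ d ∈ D, ¬ d <:+: diff u v

/-- the largest size of a set of binary words of length `t` that avoids `D` -/
noncomputable def delta (D : List (List ℕ)) (t : ℕ) : ℕ :=
  sSup {n | ∃ W : Finset (Fin t → Bool), Avoids D W ∧ W.card = n}

/-- the capacity -/
noncomputable def cap (D : List (List ℕ)) : ℝ :=
  limUnder atTop fun t : ℕ => Real.logb 2 (delta D t) / t

abbrev Inst := List (List ℕ) × ℕ × ℕ

/-- a non-empty list of words over the three letters, and a positive denominator -/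
def Valid (z : Inst) : Prop := z.1 ≠ [] ∧ (∀ d ∈ z.1, ∀ x ∈ d, x ≤ 2) ∧ 0 < z.2.2

section
variable {D : List (List ℕ)} {t : ℕ}

lemma bdd : BddAbove {n | ∃ W : Finset (Fin t → Bool), Avoids D W ∧ W.card = n} :=
  ⟨_, by rintro _ ⟨W, -, rfl⟩; exact card_le_univ W⟩

lemma le_delta {W : Finset (Fin t → Bool)} (h : Avoids D W) : W.card ≤ delta D t :=
  le_csSup bdd ⟨W, h, rfl⟩

lemma delta_le {N : ℕ} (h : ∀ W : Finset (Fin t → Bool), Avoids D W → W.card ≤ N) :
    delta D t ≤ N :=
  csSup_le ⟨0, ∅, by simp [Avoids], rfl⟩ (by rintro _ ⟨W, e, rfl⟩; exact h W e)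

lemma delta_pos : 1 ≤ delta D t :=
  le_delta (W := {fun _ => false}) (by simp [Avoids])

lemma delta_mul (m n : ℕ) : delta D (m + n) ≤ delta D m * delta D n := by
  refine delta_le fun W hW => ?_
  have e : ∀ u v : Fin (m + n) → Bool, diff u v =
      diff (fun i => u (Fin.castAdd n i)) (fun i => v (Fin.castAdd n i)) ++
      diff (fun i => u (Fin.natAdd m i)) (fun i => v (Fin.natAdd m i)) := fun u v => by
    simp only [diff, List.ofFn_add]; rfl
  rw [mul_comm]
  refine (card_le_mul_card_image (f := fun (u : Fin (m + n) → Bool) i => u (Fin.castAdd n i)) W _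
    fun p _ => ?_).trans (Nat.mul_le_mul_left _ (le_delta ?_))
  · rw [← card_image_of_injOn (f := fun (u : Fin (m + n) → Bool) i => u (Fin.natAdd m i))]
    · refine le_delta ?_
      simp only [Avoids, mem_image, mem_filter]
      rintro _ ⟨u, hu, rfl⟩ _ ⟨v, hv, rfl⟩ ne d hd h
      exact hW u hu.1 v hv.1 (fun c => ne (by rw [c])) d hd
        (e u v ▸ h.trans (List.suffix_append _ _).isInfix)
    · intro u hu v hv h
      simp only [coe_filter, Set.mem_ofPred_eq] at hu hv
      ext i
      refine Fin.addCases (fun j => congrFun (hu.2.trans hv.2.symm) j) (fun j => congrFun h j) i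
  · simp only [Avoids, mem_image]
    rintro _ ⟨u, hu, rfl⟩ _ ⟨v, hv, rfl⟩ ne d hd h
    exact hW u hu v hv (fun c => ne (by rw [c])) d hd
      (e u v ▸ h.trans (List.prefix_append _ _).isInfix)

lemma sub (D : List (List ℕ)) : Subadditive fun t => Real.logb 2 (delta D t) := fun m n => by
  have a : ∀ t, (0 : ℝ) < delta D t := fun t => by exact_mod_cast delta_pos
  rw [← Real.logb_mul (a _).ne' (a _).ne']
  exact Real.logb_le_logb_of_le (by norm_num) (a _) (by exact_mod_cast delta_mul m n)

lemma below : BddBelow (Set.range fun t : ℕ => Real.logb 2 (delta D t) / t) :=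
  ⟨0, by
    rintro _ ⟨t, rfl⟩
    exact div_nonneg (Real.logb_nonneg (by norm_num) (by exact_mod_cast delta_pos)) (by positivity)⟩

lemma cap_eq : cap D = (sub D).lim := ((sub D).tendsto_lim below).limUnder_eq

lemma tends : Tendsto (fun t : ℕ => Real.logb 2 (delta D t) / t) atTop (nhds (cap D)) :=
  cap_eq ▸ (sub D).tendsto_lim below

lemma cap_le {j : ℕ} (ht : t ≠ 0) (h : delta D t ≤ 2 ^ j) : cap D ≤ j / t := by
  refine cap_eq ▸ ((sub D).lim_le_div below ht).trans (div_le_div_of_nonneg_right ?_ (by positivity))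
  rw [Real.logb_le_iff_le_rpow (by norm_num) (by exact_mod_cast delta_pos), Real.rpow_natCast]
  exact_mod_cast h

lemma le_cap {B : ℕ} (hB : 0 < B) (h : ∀ m, 2 ^ m ≤ delta D (m * B)) : 1 / (B : ℝ) ≤ cap D := by
  refine ge_of_tendsto ((tends (D := D)).comp (tendsto_id.atTop_mul_const' hB))
    ((eventually_gt_atTop 0).mono fun m hm => ?_)
  have : (0 : ℝ) < m := by exact_mod_cast hm
  have : (0 : ℝ) < B := by exact_mod_cast hB
  have : (m : ℝ) ≤ Real.logb 2 (delta D (m * B)) := by
    rw [Real.le_logb_iff_rpow_le (by norm_num) (by exact_mod_cast delta_pos), Real.rpow_natCast]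
    exact_mod_cast h m
  simp only [Function.comp, id, Nat.cast_mul]
  rw [div_le_div_iff₀ (by positivity) (by positivity)]
  nlinarith

end

def pats (F : List ℕ) : List (List ℕ) :=
  F.flatMap fun g => [1, 2].flatMap fun s => [1, 2].map fun s' => s :: (List.replicate g 0 ++ [s'])

lemma pat_get (s s' g i : ℕ) : (s :: (List.replicate g 0 ++ [s']))[i]? =
    if i = 0 then some s else if i ≤ g then some 0 else if i = g + 1 then some s' else none := by
  cases i with
  | zero => simp
  | succ i =>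
    simp only [List.getElem?_cons_succ, List.getElem?_append, List.length_replicate,
      List.getElem?_replicate, List.getElem?_singleton]
    split_ifs <;> first | rfl | omega | contradiction

lemma dl0 (a b : Bool) : (dl a b = 0 ↔ a = b) ∧ dl a b ≤ 2 := by cases a <;> cases b <;> simp [dl]

lemma bad_iff (F : List ℕ) {t : ℕ} (u v : Fin t → Bool) : (∃ d ∈ pats F, d <:+: diff u v) ↔
    ∃ x y : Fin t, x < y ∧ y.1 - x.1 - 1 ∈ F ∧ u x ≠ v x ∧ u y ≠ v y ∧
      ∀ z, x < z → z < y → u z = v z := by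
  have e : ∀ z : Fin t, (diff u v)[z.1]? = some (dl (u z) (v z)) := fun z => by simp [diff]
  have l : (diff u v).length = t := by simp [diff]
  simp only [pats, List.mem_flatMap, List.mem_map, List.infix_iff_getElem?, l]
  constructor
  · rintro ⟨_, ⟨g, hg, s, hs, s', hs', rfl⟩, k, h1, h2⟩
    simp only [List.length_cons, List.length_append, List.length_replicate, List.length_nil,
      List.mem_cons, List.not_mem_nil, or_false] at h1 h2 hs hs'
    have h3 : ∀ z : Fin t, k ≤ z.1 → z.1 ≤ k + g + 1 → some (dl (u z) (v z)) =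
        (s :: (List.replicate g 0 ++ [s']))[z.1 - k]? := fun z a b => by
      have := h2 (z.1 - k) (by omega)
      rwa [Nat.sub_add_cancel a, e, ← List.getElem?_eq_getElem] at this
    refine ⟨⟨k, by omega⟩, ⟨k + g + 1, by omega⟩, by simp [Fin.lt_def],
      by simpa [Nat.add_assoc] using hg, fun c => ?_, fun c => ?_, fun z a b => ?_⟩
    · have := h3 ⟨k, by omega⟩ le_rfl (by simp only; omega)
      simp [(dl0 _ _).1.2 c] at this; omega
    · have := h3 ⟨k + g + 1, by omega⟩ (by simp only; omega) le_rfl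
      rw [(dl0 _ _).1.2 c, pat_get] at this
      simp only at this
      split_ifs at this <;> simp at this <;> omega
    · simp only [Fin.lt_def] at a b
      have := h3 z (by omega) (by omega)
      rw [pat_get, if_neg (by omega), if_pos (by omega)] at this
      exact (dl0 _ _).1.1 (by simpa using this)
  · rintro ⟨x, y, h1, h2, h3, h4, h5⟩
    have := (dl0 (u x) (v x)).2
    have := (dl0 (u y) (v y)).2
    have := mt (dl0 _ _).1.1 h3
    have := mt (dl0 _ _).1.1 h4
    have := y.2
    rw [Fin.lt_def] at h1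
    refine ⟨_, ⟨_, h2, dl (u x) (v x), by simp; omega, dl (u y) (v y), by simp; omega, rfl⟩, x,
      by simp; omega, fun i h => ?_⟩
    simp only [List.length_cons, List.length_append, List.length_replicate, List.length_nil] at h
    rw [← List.getElem?_eq_getElem, pat_get, e ⟨i + x, by omega⟩]
    split_ifs with a b c
    · simp [a]
    · rw [(dl0 _ _).1.2 (h5 _ (by simp [Fin.lt_def]; omega) (by simp [Fin.lt_def]; omega))]
    · have : (⟨i + x, by omega⟩ : Fin t) = y := Fin.ext (by simp; omega)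
      rw [this]
    · omega

def av (n z : ℕ) : ℕ := z + 3 * (n + 1) ^ 2 * (z ^ 2 + 3 * (n + 1) ^ 2 * z ^ 3)

lemma av_le {n z : ℕ} (h : z < n) : av n z ≤ av n n := by unfold av; gcongr

lemma b3 {n u v u' v' p q : ℕ} (h : u < n ∧ v < n ∧ u' < n ∧ v' < n ∧ p < n ∧ q < n)
    (a1 : u ≠ v) (a2 : u' ≠ v') (a3 : p ≠ q)
    (e : av n u' + av n v + av n q = av n v' + av n u + av n p) :
    (u = u' ∧ p = v ∧ q = v') ∨ (v = v' ∧ p = u' ∧ q = u) := by
  have k : ∀ a b a' b' : ℕ, a < 3 * (n + 1) ^ 2 → a' < 3 * (n + 1) ^ 2 →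
      a + 3 * (n + 1) ^ 2 * b = a' + 3 * (n + 1) ^ 2 * b' → a = a' ∧ b = b' := fun a b a' b' x y z => by
    have := congrArg (· % (3 * (n + 1) ^ 2)) z
    simp only [Nat.add_mul_mod_self_left, Nat.mod_eq_of_lt x, Nat.mod_eq_of_lt y] at this
    subst this
    exact ⟨rfl, by simpa using z⟩
  have s : ∀ z, z < n → z ^ 2 < (n + 1) ^ 2 ∧ z < (n + 1) ^ 2 := fun z h => ⟨by gcongr; omega, by nlinarith⟩
  obtain ⟨b1, b2, b3, b4, b5, b6⟩ := h
  have := s _ b1; have := s _ b2; have := s _ b3; have := s _ b4; have := s _ b5; have := s _ b6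
  obtain ⟨h1, h2⟩ := k (u' + v + q) (u' ^ 2 + v ^ 2 + q ^ 2 + 3 * (n + 1) ^ 2 * (u' ^ 3 + v ^ 3 + q ^ 3))
    (v' + u + p) (v' ^ 2 + u ^ 2 + p ^ 2 + 3 * (n + 1) ^ 2 * (v' ^ 3 + u ^ 3 + p ^ 3))
    (by omega) (by omega) (by unfold av at e; linear_combination e)
  obtain ⟨h2, h3⟩ := k _ _ _ _ (by omega) (by omega) h2
  zify at h1 h2 h3 a1 a2 a3 ⊢
  generalize (u : ℤ) = u, (v : ℤ) = v, (u' : ℤ) = u', (v' : ℤ) = v', (p : ℤ) = p, (q : ℤ) = q at *
  obtain rfl : p = u' + v + q - v' - u := by omega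
  have : 6 * ((q - v') * (q - u) * (q - (u' + v + q - v' - u))) = 0 := by
    linear_combination (3 * q - 3 * (u' + v + q)) * h2 + 2 * h3
  simp only [mul_eq_zero, sub_eq_zero] at this
  rcases this with h | (rfl | rfl) | h
  · omega
  · have : 2 * ((v - u) * (u - u')) = 0 := by linear_combination h2
    simp only [mul_eq_zero, sub_eq_zero] at this; omega
  · have : 2 * ((u' - v') * (v' - v)) = 0 := by linear_combination h2
    simp only [mul_eq_zero, sub_eq_zero] at this; omega
  · omega

def cC (n k : ℕ) : ℕ := (k + 2) * av n n + 1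
def cB (n k : ℕ) : ℕ := cC n k + av n n

def al (M : List (List Bool)) (k g : ℕ) : Prop := cC M.length k ≤ g ∧ ∃ u < M.length, ∃ v < M.length,
  ent M u v = true ∧ (g + av M.length u) % cB M.length k = av M.length v

instance (M : List (List Bool)) (k g : ℕ) : Decidable (al M k g) := by unfold al; infer_instance

def gaps (I : List (List Bool) × ℕ) : List ℕ :=
  (List.range (I.2 * cB I.1.length I.2 - 1)).filter fun g => decide (¬ al I.1 I.2 (g + 1))

lemma lower {M : List (List Bool)} {k : ℕ} (hk : 0 < k) (h : HasClq M k) (m : ℕ) :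
    2 ^ m ≤ delta (pats (gaps (M, k))) (m * cB M.length k) := by
  obtain ⟨S, h1, h2, h3⟩ := h
  let c : ℕ → ℕ := fun i => S.orderEmbOfFin h2 ⟨i % k, Nat.mod_lt _ hk⟩
  have c1 : ∀ i, c i ∈ S := fun i => orderEmbOfFin_mem _ _ _
  have c2 : ∀ i j, c i = c j → i % k = j % k := fun i j e => by simpa [c] using e
  have c3 : ∀ i, av M.length (c i) ≤ av M.length M.length := fun i => av_le (h1 _ (c1 i))
  set B := cB M.length k with hB
  have B1 : B = cC M.length k + av M.length M.length := rfl
  have B2 : 0 < cC M.length k := Nat.succ_pos _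
  have B0 : 0 < B := by omega
  let φ : (Fin m → Bool) → Fin (m * B) → Bool := fun s x =>
    decide (x.1 % B = av M.length (c (x.1 / B))) && s ⟨x.1 / B, Nat.div_lt_of_lt_mul (mul_comm m B ▸ x.2)⟩
  have : φ.Injective := fun s s' e => by
    ext i
    have := c3 i
    have a : (B * i + av M.length (c i)) / B = i := by
      rw [Nat.mul_add_div B0, Nat.div_eq_of_lt (by omega)]; rfl
    have := congrFun e ⟨B * i + av M.length (c i), by nlinarith [i.2]⟩
    simpa [φ, a, Nat.mod_eq_of_lt (show av M.length (c i) < B by omega)] using this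
  refine le_trans (by rw [card_image_of_injective _ this]; simp) (le_delta (W := univ.image φ) ?_)
  intro u hu v hv _ d hd e
  obtain ⟨x, y, a1, a2, a3, a4, -⟩ := (bad_iff _ u v).1 ⟨d, hd, e⟩
  obtain ⟨s, -, rfl⟩ := mem_image.1 hu
  obtain ⟨s', -, rfl⟩ := mem_image.1 hv
  have a : ∀ x, φ s x ≠ φ s' x → x.1 % B = av M.length (c (x.1 / B)) := fun x e => by
    by_contra c; simp [φ, c] at e
  have a3 := a _ a3
  have a4 := a _ a4
  rw [Fin.lt_def] at a1
  generalize x.1 = x, y.1 = y at *
  simp only [gaps, List.mem_filter, List.mem_range, decide_eq_true_eq, ← hB] at a2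
  have := Nat.div_add_mod x B
  have := Nat.div_add_mod y B
  have b1 : x / B < y / B := (Nat.div_le_div_right a1.le).lt_of_ne fun e => by
    have : B * (x / B) = B * (y / B) := by rw [e]
    rw [e] at a3; omega
  obtain ⟨j, hj⟩ := Nat.exists_eq_add_of_lt b1
  have := c3 (x / B)
  have b2 : B * (y / B) = B * (x / B) + B * j + B := by rw [hj]; ring
  by_cases b : c (x / B) = c (y / B)
  · have := Nat.le_of_dvd (by omega) ((Nat.modEq_iff_dvd' b1.le).1 (c2 _ _ b))
    have : k * B ≤ (j + 1) * B := Nat.mul_le_mul_right _ (by omega)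
    rw [b] at a3
    have : (j + 1) * B = B * j + B := by ring
    omega
  · refine a2.2 ⟨by omega, _, h1 _ (c1 _), _, h1 _ (c1 _), h3 _ (c1 _) _ (c1 _) b, ?_⟩
    rw [← hB, ← a4, show y - x - 1 + 1 + av M.length (c (x / B)) = y % B + B * (j + 1) by
      rw [mul_add]; omega, Nat.add_mul_mod_self_left, Nat.mod_mod]

lemma clq {M : List (List Bool)} (hM : IsGraph M) {k : ℕ} (h2 : 2 ≤ k) {X : Finset ℕ} (hX : X.card = k)
    (h : ∀ x ∈ X, ∀ y ∈ X, x < y → al M k (y - x)) : HasClq M k := by
  have sy : ∀ i j, ent M i j = true → ent M j i = true := hM.2.2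
  have ir : ∀ i j, ent M i j = true → i ≠ j := fun i j e c => hM.2.1 j (c ▸ e :)
  have : ∀ x y, ∃ u v, x ∈ X → y ∈ X → x ≠ y → u < M.length ∧ v < M.length ∧ ent M u v = true ∧
      (y + av M.length u : ZMod (cB M.length k)) = x + av M.length v := fun x y => by
    have k : ∀ x ∈ X, ∀ y ∈ X, x < y → ∃ u v, u < M.length ∧ v < M.length ∧ ent M u v = true ∧
        (y + av M.length u : ZMod (cB M.length k)) = x + av M.length v := fun x hx y hy e => by
      obtain ⟨-, u, a1, v, a2, a3, a4⟩ := h x hx y hy e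
      refine ⟨u, v, a1, a2, a3, ?_⟩
      rw [← a4, ZMod.natCast_mod, Nat.cast_add, Nat.cast_sub e.le]; ring
    by_cases c : x ∈ X ∧ y ∈ X ∧ x ≠ y
    · rcases c.2.2.lt_or_gt with e | e
      · obtain ⟨u, v, a⟩ := k x c.1 y c.2.1 e
        exact ⟨u, v, fun _ _ _ => a⟩
      · obtain ⟨u, v, a1, a2, a3, a4⟩ := k y c.2.1 x c.1 e
        exact ⟨v, u, fun _ _ _ => ⟨a2, a1, sy _ _ a3, a4.symm⟩⟩
    · exact ⟨0, 0, by tauto⟩
  choose u v H using this
  obtain ⟨x, hx, y, hy, ne⟩ := one_lt_card.1 (show 1 < X.card by omega)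
  have T : ∀ z ∈ X, ∀ w ∈ X, x ≠ z → x ≠ w → z ≠ w →
      (u x z = u x w ∧ ent M (v x z) (v x w) = true) ∨ (v x z = v x w ∧ ent M (u x w) (u x z) = true) :=
    fun z hz w hw e1 e2 e3 => by
    obtain ⟨a1, a2, a3, a4⟩ := H x z hx hz e1
    obtain ⟨b1, b2, b3', b4⟩ := H x w hx hw e2
    obtain ⟨c1, c2, c3, c4⟩ := H z w hz hw e3
    have := av_le a1; have := av_le a2; have := av_le b1; have := av_le b2; have := av_le c1
    have := av_le c2
    have : 3 * av M.length M.length < cB M.length k := by unfold cB cC; nlinarith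
    have : ((av M.length (u x w) + av M.length (v x z) + av M.length (v z w) : ℕ) : ZMod (cB M.length k)) =
        (av M.length (v x w) + av M.length (u x z) + av M.length (u z w) : ℕ) := by
      push_cast; linear_combination b4 - a4 - c4
    rw [ZMod.natCast_eq_natCast_iff', Nat.mod_eq_of_lt (by omega), Nat.mod_eq_of_lt (by omega)] at this
    rcases b3 ⟨a1, a2, b1, b2, c1, c2⟩ (ir _ _ a3) (ir _ _ b3') (ir _ _ c3) this with
      ⟨d1, d2, d3⟩ | ⟨d1, d2, d3⟩
    · exact Or.inl ⟨d1, d2 ▸ d3 ▸ c3⟩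
    · exact Or.inr ⟨d1, d2 ▸ d3 ▸ c3⟩
  have fin : ∀ (f : ℕ → ℕ) (o : ℕ), o < M.length →
      (∀ z ∈ X, x ≠ z → f z < M.length ∧ ent M o (f z) = true) →
      (∀ z ∈ X, ∀ w ∈ X, x ≠ z → x ≠ w → z ≠ w → ent M (f z) (f w) = true) → HasClq M k :=
    fun f o a b c => by
    have : ∀ z ∈ X, ∀ w ∈ X, z ≠ w →
        ent M (if x = z then o else f z) (if x = w then o else f w) = true := fun z hz w hw e => by
      split_ifs with p q q
      exacts [absurd (p.symm.trans q) e, (b w hw q).2, sy _ _ (b z hz p).2, c z hz w hw p q e]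
    refine ⟨X.image fun z => if x = z then o else f z, ?_, by
      rw [card_image_of_injOn fun z hz w hw e => by_contra fun c => ir _ _ (this z hz w hw c) e, hX],
      ?_⟩ <;> simp only [mem_image]
    · rintro _ ⟨z, hz, rfl⟩
      split_ifs with p
      exacts [a, (b z hz p).1]
    · rintro _ ⟨z, hz, rfl⟩ _ ⟨w, hw, rfl⟩ e
      exact this z hz w hw fun c => e (by rw [c])
  have hy' := H x y hx hy ne
  by_cases c : ∀ z ∈ X, x ≠ z → u x z = u x y
  · exact fin (v x) (u x y) hy'.1 (fun z hz e => ⟨(H x z hx hz e).2.1, c z hz e ▸ (H x z hx hz e).2.2.1⟩)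
      fun z hz w hw a1 a2 a3 => (T z hz w hw a1 a2 a3).elim (·.2) fun d =>
        absurd ((c w hw a2).trans (c z hz a1).symm) (ir _ _ d.2)
  · have c : ∀ z ∈ X, x ≠ z → v x z = v x y := fun z hz e => by
      push Not at c
      obtain ⟨w, hw, e1, e2⟩ := c
      have a1 := fun a => (T z hz w hw e e1 a).imp And.left And.left
      have a2 := fun a => (T z hz y hy e ne a).imp And.left And.left
      have a3 := fun a => (T w hw y hy e1 ne a).imp And.left And.left
      clear H T fin h hy' sy ir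
      grind
    exact fin (u x) (v x y) hy'.2.1
      (fun z hz e => ⟨(H x z hx hz e).1, c z hz e ▸ sy _ _ (H x z hx hz e).2.2.1⟩)
      fun z hz w hw a1 a2 a3 => (T z hz w hw a1 a2 a3).elim (fun d =>
        absurd ((c z hz a1).trans (c w hw a2).symm) (ir _ _ d.2)) fun d => sy _ _ d.2

lemma upper {M : List (List Bool)} (hM : IsGraph M) {k : ℕ} (h2 : 2 ≤ k) (h : ¬ HasClq M k) :
    delta (pats (gaps (M, k))) (k * cC M.length k) ≤ 2 ^ (k - 1) := by
  refine delta_le fun W hW => ?_
  have C0 : 0 < cC M.length k := Nat.succ_pos _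
  have key : ∀ u ∈ W, ∀ v ∈ W, ∀ x y : Fin (k * cC M.length k), x < y → u x ≠ v x → u y ≠ v y →
      (∀ z, x < z → z < y → u z = v z) → al M k (y.1 - x.1) := fun u hu v hv x y a1 a2 a3 a4 => by
    by_contra c
    obtain ⟨d, hd, e⟩ := (bad_iff (gaps (M, k)) u v).2 ⟨x, y, a1, by
      have := y.2
      have : k * cC M.length k ≤ k * cB M.length k := Nat.mul_le_mul_left _ (Nat.le_add_right _ _)
      rw [Fin.lt_def] at a1
      simp only [gaps, List.mem_filter, List.mem_range, decide_eq_true_eq]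
      exact ⟨by omega, by rwa [Nat.sub_add_cancel (by omega)]⟩, a2, a3, a4⟩
    exact hW u hu v hv (fun c => a2 (by rw [c])) d hd e
  let X := univ.filter fun x => ∃ u ∈ W, ∃ v ∈ W, u x ≠ v x
  have mX : ∀ x, x ∈ X ↔ ∃ u ∈ W, ∃ v ∈ W, u x ≠ v x := by simp [X]
  have gap : ∀ x ∈ X, ∀ y ∈ X, x < y → cC M.length k ≤ y.1 - x.1 := fun x hx y hy e => by
    obtain ⟨w, a1, a2⟩ := exists_min_image (X.filter (x < ·)) id ⟨y, by simp [hy, e]⟩
    simp only [mem_filter, id, and_imp] at a1 a2
    have : ∃ u ∈ W, ∃ v ∈ W, u x ≠ v x ∧ u w ≠ v w := by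
      obtain ⟨u, hu, v, hv, b⟩ := (mX _).1 hx
      obtain ⟨u', hu', v', hv', b'⟩ := (mX _).1 a1.1
      by_contra c
      push Not at c
      exact (by decide : ∀ a b a' b' c d c' d' : Bool, a ≠ b → c' ≠ d' → (a ≠ b → c = d) →
        (a ≠ a' → c = c') → (b ≠ a' → d = c') → (a ≠ b' → c = d') → ¬ (b ≠ b' → d = d')) _ _ _ _ _ _ _ _
        b b' (c u hu v hv) (c u hu u' hu') (c v hv u' hu') (c u hu v' hv') (c v hv v' hv')
    obtain ⟨u, hu, v, hv, b1, b2⟩ := this
    have := (key u hu v hv x w a1.2 b1 b2 fun z c1 c2 => by_contra fun c =>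
      (a2 z ((mX _).2 ⟨u, hu, v, hv, c⟩) c1).not_gt c2).1
    have := Fin.le_def.1 (a2 y hy e)
    omega
  have cX : X.card ≤ k := by
    refine (card_le_card_of_injOn (t := range k) (fun x => x.1 / cC M.length k)
      (fun x _ => ?_) fun x hx y hy e => ?_).trans (by simp)
    · simpa using Nat.div_lt_of_lt_mul (mul_comm k _ ▸ x.2)
    · have := Nat.div_add_mod x (cC M.length k)
      have := Nat.div_add_mod y (cC M.length k)
      have := Nat.mod_lt x C0
      have := Nat.mod_lt y C0
      have := gap x hx y hy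
      have := gap y hy x hx
      simp only [Fin.lt_def] at *
      rw [e] at *
      ext; omega
  have inj : ∀ (T : Finset (Fin (k * cC M.length k))) (φ : (Fin (k * cC M.length k) → Bool) → _ → Bool), T.card ≤ k - 1 →
      (∀ u ∈ W, ∀ v ∈ W, (∀ z ∈ T, φ u z = φ v z) → ∀ z ∈ X, u z = v z) → W.card ≤ 2 ^ (k - 1) :=
    fun T φ a b => by
    refine (card_le_card_of_injOn (t := T.powerset) (fun u => T.filter (φ u · = true))
      (fun u _ => mem_coe.2 (mem_powerset.2 (filter_subset _ _))) fun u hu v hv e => ?_).trans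
      (by rw [card_powerset]; exact Nat.pow_le_pow_right (by simp) a)
    ext z
    by_contra c
    refine c (b u hu v hv (fun z hz => ?_) z ((mX _).2 ⟨u, hu, v, hv, c⟩))
    simpa [hz] using Finset.ext_iff.1 e z
  by_cases c : X.card = k
  swap
  · exact inj X (fun u => u) (by omega) fun _ _ _ _ a => a
  by_contra d
  refine h (clq hM h2 (X := X.map Fin.valEmbedding) (by simpa using c) ?_)
  simp only [Finset.mem_map, Fin.valEmbedding_apply]
  rintro _ ⟨x, hx, rfl⟩ _ ⟨y, hy, rfl⟩ e
  by_contra a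
  refine d (inj (X.erase x) (fun u z => xor (u z) (decide (z = y) && u x))
    (by rw [card_erase_of_mem hx, c]) fun u hu v hv b z hz => ?_)
  have e' : x < y := e
  by_cases f : u x = v x
  · by_cases g : z = x
    · rwa [g]
    · simpa [f] using b z (by simp [g, hz])
  · refine absurd (key u hu v hv x y e f ?_ fun z c1 c2 => by_contra fun g => g ?_) a
    · have := b y (by simp [hy, e'.ne'])
      revert this f
      cases u x <;> cases v x <;> cases u y <;> cases v y <;> simp
    · simpa [c2.ne] using b z (by simp [c1.ne', (mX _).2 ⟨u, hu, v, hv, g⟩])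

def red (I : List (List Bool) × ℕ) : Inst := (pats (gaps I), 1, cB I.1.length I.2)

lemma red_pt : PT red := by
  have : PT fun p : ℕ × ℕ => av p.1 p.2 := by unfold av; fun_prop
  have : PT fun p : ℕ × ℕ => cC p.1 p.2 := by unfold cC; fun_prop
  have : PT fun p : ℕ × ℕ => cB p.1 p.2 := by unfold cB; fun_prop
  have : PT gaps := PT.filter (PP.decide (by unfold al; fun_prop)) (by fun_prop)
  unfold red pats; fun_prop

theorem result :
    (∀ D, Tendsto (fun t : ℕ => Real.logb 2 (delta D t) / t) atTop (nhds (cap D))) ∧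
    ∀ Q : Inst → Prop, (∀ z, Valid z → (z.2.1 : ℝ) / z.2.2 ≤ cap z.1 → Q z) →
      (∀ z, Valid z → cap z.1 ≤ (z.2.1 : ℝ) / z.2.2 - 1 / z.2.2 ^ 3 → ¬ Q z) → NPHard (Lang Q) := by
  refine ⟨fun _ => tends, fun Q h1 h2 => (Hard.of_clique red_pt fun M k hM a1 a2 => ?_).npHard⟩
  have A : 1 ≤ av M.length M.length := by unfold av; omega
  have C : cC M.length k = (k + 2) * av M.length M.length + 1 := rfl
  have B : cB M.length k = cC M.length k + av M.length M.length := rfl
  have V : Valid (red (M, k)) := by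
    refine ⟨List.ne_nil_of_mem (a := [1, 1]) ?_, ?_, by simp [red]; omega⟩
    · simp only [red, pats, gaps, List.mem_flatMap, List.mem_filter, List.mem_range, decide_eq_true_eq]
      refine ⟨0, ⟨?_, fun c => ?_⟩, by simp⟩
      · have : 2 * 1 ≤ k * cB M.length k := Nat.mul_le_mul a1 (by omega)
        omega
      · have := c.1; nlinarith
    · simp only [red, pats, List.mem_flatMap, List.mem_map]
      rintro _ ⟨g, -, s, hs, s', hs', rfl⟩ x hx
      simp at hs hs' hx; omega
  refine ⟨fun c => h1 _ V ?_, fun c => by_contra fun d => h2 _ V ?_ c⟩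
  · simpa [red] using le_cap (by omega) (lower (by omega) c)
  · refine (cap_le (Nat.mul_ne_zero (by omega) (by omega)) (upper hM a1 d)).trans ?_
    simp only [red, Nat.cast_mul, Nat.cast_sub (show 1 ≤ k by omega), B, C]
    push_cast
    have : (2 : ℝ) ≤ k := by exact_mod_cast a1
    have : (1 : ℝ) ≤ av M.length M.length := by exact_mod_cast A
    generalize (av M.length M.length : ℝ) = a, (k : ℝ) = k at *
    have : k ≤ k * a := by nlinarith
    set c := (k + 2) * a + 1 with hc
    have : 0 < c := by positivity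
    have : (k - 1) / (k * c) = 1 / (c + a) - (3 * a + 1) / (k * c * (c + a)) := by
      field_simp; rw [hc]; ring
    rw [this]
    gcongr ?_ - ?_
    rw [div_le_div_iff₀ (by positivity) (by positivity)]
    have : k * c * (c + a) ≤ (c + a) * (c + a) * (c + a) := by gcongr <;> nlinarith
    nlinarith [pow_pos (show 0 < c + a by positivity) 3]

end Pool.Agent.Results.MP_edb722_lc.NPHard
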